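import Pool.Agent.W668.Uni.Stmts

/-!
# UNI-N3 (assembly A): the smooth map `N₃` on `E 3`
-/

set_option autoImplicit false

open Set MeasureTheory
open scoped ContDiff Topology

namespace Pool.Agent.W693.Uni

open Pool.Agent.W668.Uni

noncomputable section

theorem evX_of_mem (f : X) {x : ℝ} (hx : x ∈ Icc (0 : ℝ) 1) : evX f x = f ⟨x, hx⟩ := by
  unfold evX
  rw [projIcc_of_mem zero_le_one hx]

theorem evY_of_mem (h : Y) {y t : ℝ} (hy : y ∈ Icc (0 : ℝ) 1)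
    (ht : t ∈ Icc (0 : ℝ) (Real.pi / 2)) : evY h y t = h (⟨y, hy⟩, ⟨t, ht⟩) := by
  unfold evY
  rw [projIcc_of_mem zero_le_one hy, projIcc_of_mem Th_le ht]

theorem ext_evX {f g : X} (h : ∀ x : ℝ, 0 ≤ x → x ≤ 1 → evX f x = evX g x) : f = g := by
  ext x
  have := h x x.2.1 x.2.2
  rw [evX_of_mem f x.2, evX_of_mem g x.2] at this
  exact this

theorem ext_evY {f g : Y} (h : ∀ y t : ℝ, 0 ≤ y → y ≤ 1 → 0 ≤ t → t ≤ Real.pi / 2 →
    evY f y t = evY g y t) : f = g := by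
  ext z
  have := h z.1 z.2 z.1.2.1 z.1.2.2 z.2.2.1 z.2.2.2
  rw [evY_of_mem f z.1.2 z.2.2, evY_of_mem g z.1.2 z.2.2] at this
  exact this

theorem dil_mem (a : ℝ) {x : ℝ} (h0 : 0 ≤ x) (h1 : x ≤ 1) :
    0 ≤ Real.exp (-|a|) * x ∧ Real.exp (-|a|) * x ≤ 1 :=
  (dil a ⟨x, h0, h1⟩).2

theorem evX_tau (a : ℝ) (f : X) {x : ℝ} (h0 : 0 ≤ x) (h1 : x ≤ 1) :
    evX (τX a f) x = evX f (Real.exp (-|a|) * x) := by
  rw [evX_of_mem (τX a f) ⟨h0, h1⟩, evX_of_mem f (dil_mem a h0 h1)]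
  rfl

theorem evY_tau (a : ℝ) (h : Y) {y t : ℝ} (h0 : 0 ≤ y) (h1 : y ≤ 1) (ht0 : 0 ≤ t)
    (ht1 : t ≤ Real.pi / 2) : evY (τY a h) y t = evY h (Real.exp (-|a|) * y) t := by
  rw [evY_of_mem (τY a h) ⟨h0, h1⟩ ⟨ht0, ht1⟩, evY_of_mem h (dil_mem a h0 h1) ⟨ht0, ht1⟩]
  rfl

theorem lift_tau (O : Ops) (a : ℝ) (f : X) : O.lift (τX a f) = τY a (O.lift f) := by
  apply ext_evY
  intro y t hy0 hy1 ht0 ht1
  have hc0 : 0 ≤ Real.cos t := Real.cos_nonneg_of_mem_Icc ⟨by linarith, ht1⟩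
  have hc1 : Real.cos t ≤ 1 := Real.cos_le_one t
  rw [O.lift_ev _ y t hy0 hy1 ht0 ht1, evY_tau a _ hy0 hy1 ht0 ht1,
    O.lift_ev _ _ t (dil_mem a hy0 hy1).1 (dil_mem a hy0 hy1).2 ht0 ht1,
    evX_tau a f (mul_nonneg hy0 hc0) (mul_le_one₀ hy1 hc0 hc1), mul_assoc]

theorem W_tau (O : Ops) (a : ℝ) (h : Y) : O.W (τY a h) = τX a (O.W h) := by
  apply ext_evX
  intro y hy0 hy1
  rw [evX_tau a _ hy0 hy1, O.W_ev, O.W_ev]
  apply intervalIntegral.integral_congr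
  intro s hs
  rw [uIcc_of_le Th_le] at hs
  show Real.sin s ^ 2 * evY (τY a h) y s = Real.sin s ^ 2 * evY h (Real.exp (-|a|) * y) s
  rw [evY_tau a h hy0 hy1 hs.1 hs.2]

theorem τY_mul (a : ℝ) (g h : Y) : τY a (g * h) = τY a g * τY a h := rfl

theorem τY_smul (a r : ℝ) (h : Y) : τY a (r • h) = r • τY a h := rfl

theorem τY_c (a : ℝ) : τY a c = c := rfl

theorem P_tau (O : Ops) (a : ℝ) (g : X) : O.P (τX a g) = τX a (O.P g) := by
  unfold Ops.P
  rw [← W_tau, lift_tau, τY_smul, τY_mul]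
  rfl

theorem norm_τX_le (a : ℝ) (f : X) : ‖τX a f‖ ≤ ‖f‖ := by
  refine (ContinuousMap.norm_le _ (norm_nonneg _)).2 fun z => ?_
  exact ContinuousMap.norm_coe_le_norm f (dil a z)

/-- `P` as a continuous linear map -/
def PL (O : Ops) : X →L[ℝ] X :=
  O.W.comp ((ContinuousLinearMap.mul ℝ Y ((4 : ℝ) • c ^ 2)).comp O.lift)

theorem PL_apply (O : Ops) (g : X) : PL O g = O.P g := by
  unfold PL Ops.P
  simp only [ContinuousLinearMap.comp_apply, ContinuousLinearMap.mul_apply']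
  rw [smul_mul_assoc]

/-- `z0` as a continuous linear map -/
def z0L (k : ℕ) : E k →L[ℝ] X :=
  (ContinuousLinearMap.proj (R := ℝ) (φ := fun _ : Fin (k + 1) => X) 0).comp (E k).subtypeL

theorem z0L_apply (k : ℕ) (u : E k) : z0L k u = z0 u := rfl

/-- elements of `E k` are determined by their zeroth component -/
theorem z0_inj (k : ℕ) (u v : E k) (h : z0 u = z0 v) : u = v := by
  have key : ∀ (n : ℕ) (hn : n < k + 1), (u : Fin (k + 1) → X) ⟨n, hn⟩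
      = (v : Fin (k + 1) → X) ⟨n, hn⟩ := by
    intro n
    induction n with
    | zero => intro hn; exact h
    | succ n ih =>
      intro hn
      have hn' : n < k := by omega
      have h1 := u.2 ⟨n, hn'⟩
      have h2 := v.2 ⟨n, hn'⟩
      have e1 : (Fin.castSucc (⟨n, hn'⟩ : Fin k)) = (⟨n, by omega⟩ : Fin (k + 1)) := rfl
      have e2 : (Fin.succ (⟨n, hn'⟩ : Fin k)) = (⟨n + 1, hn⟩ : Fin (k + 1)) := rfl
      rw [e1, e2] at h1 h2
      apply ext_evX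
      intro x hx0 hx1
      have cont : ∀ f : X, Continuous (fun s : ℝ => evX f (Real.exp (-s) * x)) := by
        intro f
        exact (continuous_evX f).comp (by fun_prop)
      set φ : ℝ → ℝ := fun s => evX ((u : Fin (k + 1) → X) ⟨n + 1, hn⟩) (Real.exp (-s) * x)
        with hφ
      set ψ : ℝ → ℝ := fun s => evX ((v : Fin (k + 1) → X) ⟨n + 1, hn⟩) (Real.exp (-s) * x)
        with hψ
      have hint : ∀ a : ℝ, 0 ≤ a → (∫ s in (0 : ℝ)..a, φ s) = ∫ s in (0 : ℝ)..a, ψ s := by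
        intro a ha
        rw [← h1 a ha x hx0 hx1, ← h2 a ha x hx0 hx1, ih (by omega)]
      have d1 : HasDerivWithinAt (fun a => ∫ s in (0 : ℝ)..a, φ s) (φ 0) (Ici 0) 0 :=
        (intervalIntegral.integral_hasDerivAt_right ((cont _).intervalIntegrable _ _)
          ((cont _).stronglyMeasurableAtFilter _ _) (cont _).continuousAt).hasDerivWithinAt
      have d2 : HasDerivWithinAt (fun a => ∫ s in (0 : ℝ)..a, ψ s) (ψ 0) (Ici 0) 0 :=
        (intervalIntegral.integral_hasDerivAt_right ((cont _).intervalIntegrable _ _)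
          ((cont _).stronglyMeasurableAtFilter _ _) (cont _).continuousAt).hasDerivWithinAt
      have d3 : HasDerivWithinAt (fun a => ∫ s in (0 : ℝ)..a, φ s) (ψ 0) (Ici 0) 0 :=
        d2.congr (fun a ha => hint a ha) (hint 0 le_rfl)
      have := (uniqueDiffWithinAt_Ici (0 : ℝ)).eq_deriv _ d1 d3
      simpa [hφ, hψ] using this
  apply Subtype.ext
  funext i
  exact key i.1 i.2

theorem curve_diff {V Z : Type*} [NormedAddCommGroup V] [NormedSpace ℝ V]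
    [NormedAddCommGroup Z] [NormedSpace ℝ Z] (N : ℝ × V → Z) (S : Set (ℝ × V)) (hS : IsOpen S)
    (hN : ContDiffOn ℝ ∞ N S) (p : ℝ × V) (hp : p ∈ S) (g : V) :
    (∃ n' : Z, HasDerivAt (fun s : ℝ => N (p.1, p.2 + s • g)) n' 0) ∧
      ∀ᶠ s : ℝ in 𝓝 0, ((p.1, p.2 + s • g) : ℝ × V) ∈ S := by
  have hcurve : HasDerivAt (fun s : ℝ => ((p.1, p.2 + s • g) : ℝ × V)) (0, g) 0 := by
    have h1 : HasDerivAt (fun s : ℝ => s • g) ((1 : ℝ) • g) 0 :=
      (hasDerivAt_id (0 : ℝ)).smul_const g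
    rw [one_smul] at h1
    have h2 : HasDerivAt (fun s : ℝ => p.2 + s • g) g 0 := h1.const_add p.2
    exact (hasDerivAt_const (0 : ℝ) p.1).prodMk h2
  have hc0 : ((p.1, p.2 + (0 : ℝ) • g) : ℝ × V) = p := by simp
  have hdiff : DifferentiableAt ℝ N (p.1, p.2 + (0 : ℝ) • g) := by
    rw [hc0]
    exact ((hN p hp).contDiffAt (hS.mem_nhds hp)).differentiableAt (by simp)
  refine ⟨⟨_, hdiff.hasFDerivAt.comp_hasDerivAt (0 : ℝ) hcurve⟩, ?_⟩
  apply hcurve.continuousAt.eventually_mem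
  simp only [hc0]
  exact hS.mem_nhds hp

theorem apply_smooth {V Z Z' : Type*} [NormedAddCommGroup V] [NormedSpace ℝ V]
    [NormedAddCommGroup Z] [NormedSpace ℝ Z] [NormedAddCommGroup Z'] [NormedSpace ℝ Z']
    (j : ℝ × V → (Z →L[ℝ] Z')) (L : V →L[ℝ] Z) (S : Set (ℝ × V))
    (hj : ContDiffOn ℝ ∞ j S) : ContDiffOn ℝ ∞ (fun p => j p (L p.2)) S :=
  hj.clm_apply (L.contDiff.comp contDiff_snd).contDiffOn

theorem domE_isOpen (k : ℕ) (e₀ M : ℝ) : IsOpen (domE k e₀ M) := by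
  have h1 : Continuous (fun p : ℝ × E k => |p.1|) := by fun_prop
  have h2 : Continuous (fun p : ℝ × E k => ‖z0 p.2‖) :=
    ((z0L k).continuous.comp continuous_snd).norm
  exact (isOpen_lt h1 continuous_const).inter (isOpen_lt h2 continuous_const)

theorem mem_dom_of_mem_domE (O : Ops) {k : ℕ} {e₀ M : ℝ} {p : ℝ × E k}
    (hp : p ∈ domE k e₀ M) : (p.1, O.lift (z0 p.2)) ∈ dom e₀ M :=
  ⟨hp.1, lt_of_le_of_lt (O.lift_norm _) hp.2⟩

theorem z0_τE (EM : EMaps) (k : ℕ) (a : ℝ) (u : E k) : z0 (EM.τE k a u) = τX a (z0 u) :=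
  EM.τE_ev k a u 0

theorem z0_drop (EM : EMaps) (k : ℕ) (u : E (k + 1)) : z0 (EM.drop k u) = z0 u :=
  EM.drop_ev k u 0

theorem uniN3 : P_smo → P_der → P_khat → P_abel → P_inj → P_lift → P_N3 := by
  intro hsmo hder hkhat habel hinj hlift O EM M e₀ η hη
  obtain ⟨jE, jH, sjE, sjH, hj⟩ := hkhat O EM M e₀ η hη
  obtain ⟨A₀, hA₀⟩ := habel O
  have sA₀ : ContDiff ℝ ∞ (fun k : Fin 4 → Y => A₀ k) :=
    ContinuousLinearMap.contDiff (𝕜 := ℝ) (E := Fin 4 → Y) (F := X →L[ℝ] X) (n := ∞) A₀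
  obtain ⟨-, hPinj, -⟩ := hinj O
  obtain ⟨-, -, hequi⟩ := hsmo O M e₀ η hη
  have Pinj : ∀ f g : X, O.P f = O.P g → f = g := by
    intro f g h
    rw [← PL_apply, ← PL_apply] at h
    have : PL O (f - g) = 0 := by rw [map_sub, h, sub_self]
    rw [PL_apply] at this
    exact sub_eq_zero.1 (hPinj _ this)
  -- the maps `N` and `A`
  set N : ℝ × E 2 → X := fun p => A₀ (jE p) (z0 p.2) with hN
  set A : ℝ × E 2 → (X →L[ℝ] X) := fun p => A₀ (jH p) with hA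
  have PN : ∀ p ∈ domE 2 e₀ M, O.P (N p) = That O η (p.1, O.lift (z0 p.2)) := by
    intro p hp
    obtain ⟨h1, h2, -, -⟩ := hj p hp
    show O.P (A₀ (jE p) (z0 p.2)) = O.W (O.lift (z0 p.2) * kE η (p.1, O.lift (z0 p.2)))
    rw [hA₀ (jE p) h1, h2, mul_comm]
  have PA : ∀ p ∈ domE 2 e₀ M, ∀ g : X,
      O.P (A p g) = O.W (O.lift g * kH O η (p.1, O.lift (z0 p.2))) := by
    intro p hp g
    obtain ⟨-, -, h1, h2⟩ := hj p hp
    show O.P (A₀ (jH p) g) = _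
    rw [hA₀ (jH p) h1, h2, mul_comm]
  have sN : ContDiffOn ℝ ∞ N (domE 2 e₀ M) := by
    have h1 : ContDiffOn ℝ ∞ (fun p => A₀ (jE p)) (domE 2 e₀ M) :=
      sA₀.comp_contDiffOn sjE
    exact apply_smooth (fun p => A₀ (jE p)) (z0L 2) (domE 2 e₀ M) h1
  have sA : ContDiffOn ℝ ∞ A (domE 2 e₀ M) := sA₀.comp_contDiffOn sjH
  have dN : ∀ p ∈ domE 2 e₀ M, ∀ g : E 2,
      HasDerivAt (fun s : ℝ => N (p.1, p.2 + s • g)) (A p (z0 g)) 0 := by
    intro p hp g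
    obtain ⟨⟨n', hn⟩, hmem⟩ := curve_diff N (domE 2 e₀ M) (domE_isOpen 2 e₀ M) sN p hp g
    have hPn : HasDerivAt (fun s : ℝ => PL O (N (p.1, p.2 + s • g))) (PL O n') 0 :=
      (PL O).hasFDerivAt.comp_hasDerivAt (0 : ℝ) hn
    have hT := hder O M e₀ η hη (p.1, O.lift (z0 p.2)) (mem_dom_of_mem_domE O hp)
      (O.lift (z0 g))
    have hev : (fun s : ℝ => PL O (N (p.1, p.2 + s • g))) =ᶠ[𝓝 0]
        (fun s : ℝ => That O η (p.1, O.lift (z0 p.2) + s • O.lift (z0 g))) := by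
      filter_upwards [hmem] with s hs
      rw [PL_apply, PN _ hs]
      congr 2
      have : z0 (p.2 + s • g) = z0 p.2 + s • z0 g := rfl
      show O.lift (z0 (p.2 + s • g)) = _
      rw [this, map_add, map_smul]
    have hT' := hT.congr_of_eventuallyEq hev
    have huniq := hPn.unique hT'
    have : n' = A p (z0 g) := by
      apply Pinj
      rw [← PL_apply, huniq, PA p hp]
    rw [← this]
    exact hn
  have domτ : ∀ (k : ℕ) (p : ℝ × E k), p ∈ domE k e₀ M → ∀ a : ℝ,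
      ((p.1, EM.τE k a p.2) : ℝ × E k) ∈ domE k e₀ M := by
    intro k p hp a
    refine ⟨hp.1, ?_⟩
    show ‖z0 (EM.τE k a p.2)‖ < M
    rw [z0_τE]
    exact lt_of_le_of_lt (norm_τX_le a _) hp.2
  have eN : ∀ p ∈ domE 2 e₀ M, ∀ a : ℝ, 0 ≤ a →
      N (p.1, EM.τE 2 a p.2) = τX a (N p) := by
    intro p hp a _
    apply Pinj
    rw [PN _ (domτ 2 p hp a), P_tau, PN p hp]
    show O.W (O.lift (z0 (EM.τE 2 a p.2)) * kE η (p.1, O.lift (z0 (EM.τE 2 a p.2))))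
      = τX a (O.W (O.lift (z0 p.2) * kE η (p.1, O.lift (z0 p.2))))
    have h := (hequi _ (mem_dom_of_mem_domE O hp) a).2.1
    rw [z0_τE, lift_tau, ← W_tau, τY_mul]
    congr 2
  have eA : ∀ p ∈ domE 2 e₀ M, ∀ a : ℝ, 0 ≤ a → ∀ g : X,
      A (p.1, EM.τE 2 a p.2) (τX a g) = τX a (A p g) := by
    intro p hp a _ g
    apply Pinj
    rw [PA _ (domτ 2 p hp a), P_tau, PA p hp]
    have h := (hequi _ (mem_dom_of_mem_domE O hp) a).2.2
    show O.W (O.lift (τX a g) * kH O η (p.1, O.lift (z0 (EM.τE 2 a p.2)))) = _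
    rw [z0_τE, lift_tau, lift_tau, ← W_tau, τY_mul]
    congr 2
  obtain ⟨N₃, sN₃, hN₃⟩ := hlift EM e₀ M N A sN sA dN eN eA
  have domd : ∀ p : ℝ × E 3, p ∈ domE 3 e₀ M →
      ((p.1, EM.drop 2 p.2) : ℝ × E 2) ∈ domE 2 e₀ M := by
    intro p hp
    refine ⟨hp.1, ?_⟩
    show ‖z0 (EM.drop 2 p.2)‖ < M
    rw [z0_drop]
    exact hp.2
  refine ⟨N₃, sN₃, ?_, ?_⟩
  · intro p hp a ha
    apply z0_inj
    rw [hN₃ _ (domτ 3 p hp a), z0_τE, hN₃ p hp, ← eN _ (domd p hp) a ha]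
    show N (p.1, EM.drop 2 (EM.τE 3 a p.2)) = N (p.1, EM.τE 2 a (EM.drop 2 p.2))
    have : EM.drop 2 (EM.τE 3 a p.2) = EM.τE 2 a (EM.drop 2 p.2) := by
      apply z0_inj
      rw [z0_drop, z0_τE, z0_τE, z0_drop]
    rw [this]
  · intro p hp
    refine ⟨?_, ?_⟩
    · rw [hN₃ p hp, PN _ (domd p hp)]
      show That O η (p.1, O.lift (z0 (EM.drop 2 p.2))) = _
      rw [z0_drop]
    · intro g
      refine ⟨A (p.1, EM.drop 2 p.2) (z0 g), ?_, ?_⟩
      · have h := dN _ (domd p hp) (EM.drop 2 g)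
        rw [z0_drop] at h
        refine h.congr_of_eventuallyEq ?_
        have hcont : Continuous (fun s : ℝ => ((p.1, p.2 + s • g) : ℝ × E 3)) := by
          fun_prop
        have hmem : ∀ᶠ s : ℝ in 𝓝 0, ((p.1, p.2 + s • g) : ℝ × E 3) ∈ domE 3 e₀ M := by
          apply hcont.continuousAt.eventually_mem
          have : ((p.1, p.2 + (0 : ℝ) • g) : ℝ × E 3) = p := by simp
          rw [this]
          exact (domE_isOpen 3 e₀ M).mem_nhds hp
        filter_upwards [hmem] with s hs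
        rw [hN₃ _ hs]
        show N (p.1, EM.drop 2 (p.2 + s • g)) = N (p.1, EM.drop 2 p.2 + s • EM.drop 2 g)
        rw [map_add, map_smul]
      · rw [PA _ (domd p hp)]
        show O.W (O.lift (z0 g) * kH O η (p.1, O.lift (z0 (EM.drop 2 p.2)))) = _
        rw [z0_drop]

end

end Pool.Agent.W693.Uni
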